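import Mathlib

set_option autoImplicit false

namespace Pool.Agent.Helper6.HallRep

/-- the binary cubic covariant -/
def F3 (x y a b : ℤ) : ℤ := a ^ 3 - 3 * x * a * b ^ 2 + 2 * y * b ^ 3

/-- the binary quartic with invariant `I = 0` -/
def F4 (x y a b : ℤ) : ℤ := a ^ 4 - 6 * x * a ^ 2 * b ^ 2 + 8 * y * a * b ^ 3 - 3 * x ^ 2 * b ^ 4

/-- the octahedral binary sextic -/
def F6 (x y a b : ℤ) : ℤ := a ^ 6 - 15 * x * a ^ 4 * b ^ 2 + 40 * y * a ^ 3 * b ^ 3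
  - 45 * x ^ 2 * a ^ 2 * b ^ 4 + 24 * x * y * a * b ^ 5 + (27 * x ^ 3 - 32 * y ^ 2) * b ^ 6

theorem F6_eq (x y a b : ℤ) : F6 x y a b = 27 * (b ^ 2 * x - a ^ 2) ^ 3
    - 36 * a * (b ^ 2 * x - a ^ 2) * F3 x y a b - 8 * F3 x y a b ^ 2 := by
  unfold F6 F3; ring

theorem F4_eq (x y a b : ℤ) : F4 x y a b = 4 * a * F3 x y a b - 3 * (b ^ 2 * x - a ^ 2) ^ 2 := by
  unfold F4 F3; ring

/-- the data of one point and one rational number -/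
structure Dat (C : ℝ) (x y a b : ℤ) (r κ : ℝ) : Prop where
  hC : 1 ≤ C
  ha : (1 : ℝ) ≤ a
  hb : (1 : ℝ) ≤ b
  r0 : 0 < r
  rx : (b : ℝ) ^ 2 * x = r ^ 2
  ry : (b : ℝ) ^ 3 * y = r ^ 3 + κ
  hκ : |κ| * r ^ 2 ≤ C * b ^ 5
  hd : |(y : ℝ) ^ 2 - x ^ 3| * b ≤ C * r

theorem exists_dat {C : ℝ} (hC : 1 ≤ C) {x y a b : ℤ} (hx : 0 < x) (hy : 0 ≤ y) (ha : 0 < a)
    (hb : 0 < b) (hd : |(y : ℝ) ^ 2 - x ^ 3| ≤ C * √(x : ℝ)) :
    Dat C x y a b (b * √(x : ℝ)) (b ^ 3 * (y - √(x : ℝ) ^ 3)) := by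
  have hxR : (0 : ℝ) < x := by exact_mod_cast hx
  have hyR : (0 : ℝ) ≤ y := by exact_mod_cast hy
  have hs : 0 < √(x : ℝ) := Real.sqrt_pos.mpr hxR
  have hss : √(x : ℝ) ^ 2 = x := Real.sq_sqrt hxR.le
  have hbR : (1 : ℝ) ≤ b := by exact_mod_cast hb
  have haR : (1 : ℝ) ≤ a := by exact_mod_cast ha
  set s := √(x : ℝ) with hsdef
  refine ⟨hC, haR, hbR, by positivity, by rw [← hss]; ring, by ring, ?_, ?_⟩
  · have h1 : |(y : ℝ) - s ^ 3| * (y + s ^ 3) ≤ C * s := by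
      have : (y : ℝ) ^ 2 - x ^ 3 = (y - s ^ 3) * (y + s ^ 3) := by rw [← hss]; ring
      rw [this, abs_mul, abs_of_nonneg (by positivity : (0 : ℝ) ≤ y + s ^ 3)] at hd
      exact hd
    have h2 : |(y : ℝ) - s ^ 3| * s ^ 2 ≤ C := by
      have h3 : |(y : ℝ) - s ^ 3| * s ^ 2 * s ≤ C * s := by
        refine le_trans ?_ h1
        have h4 := abs_nonneg ((y : ℝ) - s ^ 3)
        nlinarith
      exact le_of_mul_le_mul_right h3 hs
    rw [abs_mul, abs_of_pos (by positivity : (0 : ℝ) < (b : ℝ) ^ 3)]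
    calc (b : ℝ) ^ 3 * |(y : ℝ) - s ^ 3| * (b * s) ^ 2 = (|(y : ℝ) - s ^ 3| * s ^ 2) * b ^ 5 := by ring
      _ ≤ C * b ^ 5 := by gcongr
  · calc |(y : ℝ) ^ 2 - x ^ 3| * b ≤ (C * s) * b := by gcongr
      _ = C * (b * s) := by ring

variable {C c : ℝ} {x y a b : ℤ} {r κ : ℝ}

theorem Dat.bounds (h : Dat C x y a b r κ)
    (hm : |((b ^ 2 * x - a ^ 2 : ℤ) : ℝ)| ≤ (a : ℝ) ^ 2 / 16) :
    3 / 4 * (a : ℝ) ≤ r ∧ r ≤ 5 / 4 * a ∧ |(a : ℝ) - r| * a ≤ |((b ^ 2 * x - a ^ 2 : ℤ) : ℝ)| ∧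
      |κ| * (a : ℝ) ^ 2 ≤ 16 / 9 * C * b ^ 5 := by
  have ha := h.ha
  have hr := h.r0
  have e : ((b ^ 2 * x - a ^ 2 : ℤ) : ℝ) = r ^ 2 - a ^ 2 := by push_cast; rw [h.rx]
  rw [e] at hm ⊢
  have h1 := abs_le.mp hm
  have r1 : 3 / 4 * (a : ℝ) ≤ r := by
    by_contra hc
    push Not at hc
    nlinarith [h1.1]
  have r2 : r ≤ 5 / 4 * a := by
    by_contra hc
    push Not at hc
    nlinarith [h1.2]
  refine ⟨r1, r2, ?_, ?_⟩
  · have : r ^ 2 - (a : ℝ) ^ 2 = -((a - r) * (a + r)) := by ring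
    rw [this, abs_neg, abs_mul, abs_of_pos (by linarith : (0 : ℝ) < a + r)]
    have := abs_nonneg ((a : ℝ) - r)
    nlinarith
  · have h2 := h.hκ
    have h3 := abs_nonneg κ
    have h4 : (9 / 16 : ℝ) * a ^ 2 ≤ r ^ 2 := by nlinarith
    have h5 : |κ| * ((9 / 16 : ℝ) * a ^ 2) ≤ C * b ^ 5 := le_trans (by gcongr) h2
    linarith

theorem Dat.F3R (h : Dat C x y a b r κ) :
    ((F3 x y a b : ℤ) : ℝ) = (a - r) ^ 2 * (a + 2 * r) + 2 * κ := by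
  unfold F3
  push_cast
  linear_combination (-3 * (a : ℝ)) * h.rx + 2 * h.ry

theorem Dat.F4R (h : Dat C x y a b r κ) :
    ((F4 x y a b : ℤ) : ℝ) = (a - r) ^ 3 * (a + 3 * r) + 8 * κ * a := by
  unfold F4
  push_cast
  linear_combination (-6 * (a : ℝ) ^ 2 - 3 * ((b : ℝ) ^ 2 * x + r ^ 2)) * h.rx + 8 * (a : ℝ) * h.ry

theorem Dat.F6R (h : Dat C x y a b r κ) :
    ((F6 x y a b : ℤ) : ℝ) = (a - r) ^ 5 * (a + 5 * r)
      + 8 * κ * (a - r) * (5 * a ^ 2 + 5 * a * r + 8 * r ^ 2) - 32 * κ ^ 2 := by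
  have e : ((F6 x y a b : ℤ) : ℝ) = (a : ℝ) ^ 6 - 15 * (b ^ 2 * x) * a ^ 4 + 40 * (b ^ 3 * y) * a ^ 3
      - 45 * (b ^ 2 * x) ^ 2 * a ^ 2 + 24 * (b ^ 2 * x) * (b ^ 3 * y) * a + 27 * (b ^ 2 * x) ^ 3
      - 32 * (b ^ 3 * y) ^ 2 := by
    unfold F6
    push_cast
    ring
  rw [e, h.rx, h.ry]
  ring

theorem eq_zero_of_lt {n : ℤ} (h : |(n : ℝ)| < 1) : n = 0 := by
  have : |n| < 1 := by exact_mod_cast h
  exact Int.abs_lt_one_iff.mp this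

theorem small_of_pow {C c : ℝ} (hC : 1 ≤ C) (hc : c * (10 ^ 7 * C ^ 2) ≤ 1) (hc0 : 0 < c) :
    c ≤ 1 / 10 ^ 7 ∧ c * C ≤ 1 / 10 ^ 7 ∧ c * C ^ 2 ≤ 1 / 10 ^ 7 := by
  have h1 : c * C ^ 2 ≤ 1 / 10 ^ 7 := by linarith
  have h2 : c * C ≤ c * C ^ 2 := by
    have : C ≤ C ^ 2 := by nlinarith
    gcongr
  have h3 : c ≤ c * C := by nlinarith
  exact ⟨by linarith, by linarith, h1⟩

/-- divisibility: a root of a monic covariant at coprime `a`, `b` forces `b = 1` -/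
theorem b_eq_one {a b : ℤ} {k : ℕ} (hb : 0 < b) (hcop : IsCoprime a b) (h : b ∣ a ^ k) : b = 1 := by
  have h1 : b ∣ 1 := (hcop.symm.pow_right (n := k)).dvd_of_dvd_mul_left (by simpa using h)
  have := Int.le_of_dvd one_pos h1
  omega

/-- the cubic case -/
theorem case3 (h : Dat C x y a b r κ) (hc0 : 0 < c) (hc : c * (10 ^ 7 * C ^ 2) ≤ 1)
    (hb0 : 0 < b) (hcop : IsCoprime a b) (hne : b ^ 2 * x - a ^ 2 ≠ 0)
    (h1 : |((b ^ 2 * x - a ^ 2 : ℤ) : ℝ)| ^ 2 < c * a) (h2 : (b : ℝ) ^ 5 < c * a ^ 2) : False := by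
  obtain ⟨c1, c2, c3⟩ := small_of_pow h.hC hc hc0
  have ha := h.ha
  have hb := h.hb
  have hC := h.hC
  have hm : |((b ^ 2 * x - a ^ 2 : ℤ) : ℝ)| ≤ (a : ℝ) ^ 2 / 16 := by
    by_contra hcon
    push Not at hcon
    have : (1 : ℝ) / 16 * a ^ 2 ≥ 1 / 16 * a := by nlinarith
    have h3 : (1 / 16 * (a : ℝ)) ^ 2 ≤ |((b ^ 2 * x - a ^ 2 : ℤ) : ℝ)| ^ 2 := by
      apply pow_le_pow_left₀ (by positivity)
      linarith
    nlinarith
  obtain ⟨r1, r2, u1, k1⟩ := h.bounds hm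
  have hm1 : (1 : ℝ) ≤ |((b ^ 2 * x - a ^ 2 : ℤ) : ℝ)| := by
    have : (1 : ℤ) ≤ |b ^ 2 * x - a ^ 2| := Int.one_le_abs hne
    exact_mod_cast this
  set M := |((b ^ 2 * x - a ^ 2 : ℤ) : ℝ)| with hM
  set u := |(a : ℝ) - r| with hu
  have hu0 : 0 ≤ u := abs_nonneg _
  have ha0 : (0 : ℝ) < a := by linarith
  -- the value of the cubic
  have hF : F3 x y a b = 0 := by
    apply eq_zero_of_lt
    rw [h.F3R]
    have e1 : |((a : ℝ) - r) ^ 2 * (a + 2 * r) + 2 * κ| ≤ u ^ 2 * (a + 2 * r) + 2 * |κ| := by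
      refine (abs_add_le _ _).trans ?_
      rw [abs_mul, abs_mul, abs_pow, abs_of_pos (by linarith : (0 : ℝ) < a + 2 * r), abs_two]
    refine lt_of_le_of_lt e1 ?_
    have e2 : u ^ 2 * (a + 2 * r) ≤ 7 / 2 * c := by
      have : (u * a) ^ 2 ≤ c * a := (pow_le_pow_left₀ (by positivity) u1 2).trans h1.le
      have h3 : u ^ 2 * a ≤ c := by
        have : (u ^ 2 * a) * a ≤ c * a := by nlinarith
        exact le_of_mul_le_mul_right this ha0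
      nlinarith [sq_nonneg u]
    have e3 : |κ| ≤ 16 / 9 * (c * C) := by
      have : |κ| * (a : ℝ) ^ 2 ≤ 16 / 9 * (c * C) * a ^ 2 := by nlinarith
      exact le_of_mul_le_mul_right this (by positivity)
    linarith
  have hb1 : b = 1 := by
    apply b_eq_one (k := 3) hb0 hcop
    exact ⟨3 * x * a * b - 2 * y * b ^ 2, by unfold F3 at hF; linear_combination hF⟩
  subst hb1
  have h4d : 4 * (y ^ 2 - x ^ 3) = -((1 ^ 2 * x - a ^ 2) ^ 2 * (4 * x - a ^ 2)) := by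
    unfold F3 at hF
    linear_combination (2 * y - a ^ 3 + 3 * x * a) * hF
  have h4dR : 4 * ((y : ℝ) ^ 2 - x ^ 3) = -((((1 ^ 2 * x - a ^ 2 : ℤ) : ℝ)) ^ 2 * (4 * x - a ^ 2)) := by
    exact_mod_cast h4d
  have hd := h.hd
  have hrx := h.rx
  simp only [Int.cast_one, one_pow, one_mul, mul_one] at hd hrx
  have h5 : 4 * |(y : ℝ) ^ 2 - x ^ 3| = M ^ 2 * (4 * x - a ^ 2) := by
    have e0 : (0 : ℝ) ≤ 4 * x - a ^ 2 := by rw [hrx]; nlinarith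
    calc 4 * |(y : ℝ) ^ 2 - x ^ 3| = |4 * ((y : ℝ) ^ 2 - x ^ 3)| := by
          rw [abs_mul, abs_of_pos (by norm_num : (0 : ℝ) < 4)]
      _ = M ^ 2 * (4 * x - a ^ 2) := by
          rw [h4dR, abs_neg, abs_mul, abs_pow, abs_of_nonneg e0]
  have h6 : (5 / 4 : ℝ) * a ^ 2 ≤ 4 * x - a ^ 2 := by rw [hrx]; nlinarith
  have h7 : (5 / 4 : ℝ) * a ^ 2 ≤ M ^ 2 * (4 * x - a ^ 2) := by
    have : 1 ≤ M ^ 2 := by nlinarith
    nlinarith
  have h8 : (5 / 4 : ℝ) * a ^ 2 ≤ 5 * C * a := by nlinarith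
  have h9 : (a : ℝ) ≤ 4 * C := by
    have : (a : ℝ) * a ≤ (4 * C) * a := by nlinarith
    exact le_of_mul_le_mul_right this ha0
  simp only [Int.cast_one, one_pow] at h2
  have h10 : c * (a : ℝ) ^ 2 ≤ c * (16 * C ^ 2) := by
    have : (a : ℝ) ^ 2 ≤ 16 * C ^ 2 := by nlinarith
    gcongr
  linarith

/-- the quartic case -/
theorem case4 (h : Dat C x y a b r κ) (hc0 : 0 < c) (hc : c * (10 ^ 7 * C ^ 2) ≤ 1)
    (hb0 : 0 < b) (hcop : IsCoprime a b) (hne : b ^ 2 * x - a ^ 2 ≠ 0)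
    (h1 : |((b ^ 2 * x - a ^ 2 : ℤ) : ℝ)| ^ 3 < c * a ^ 2) (h2 : (b : ℝ) ^ 5 < c * a) : False := by
  obtain ⟨c1, c2, c3⟩ := small_of_pow h.hC hc hc0
  have ha := h.ha
  have hb := h.hb
  have hC := h.hC
  have hm : |((b ^ 2 * x - a ^ 2 : ℤ) : ℝ)| ≤ (a : ℝ) ^ 2 / 16 := by
    by_contra hcon
    push Not at hcon
    have h3 : ((a : ℝ) ^ 2 / 16) ^ 3 ≤ |((b ^ 2 * x - a ^ 2 : ℤ) : ℝ)| ^ 3 := by
      apply pow_le_pow_left₀ (by positivity) hcon.le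
    have h4 : (1 : ℝ) ≤ a ^ 4 := one_le_pow₀ ha
    nlinarith [sq_nonneg (a : ℝ)]
  obtain ⟨r1, r2, u1, k1⟩ := h.bounds hm
  have hm1 : (1 : ℝ) ≤ |((b ^ 2 * x - a ^ 2 : ℤ) : ℝ)| := by
    have : (1 : ℤ) ≤ |b ^ 2 * x - a ^ 2| := Int.one_le_abs hne
    exact_mod_cast this
  set m := b ^ 2 * x - a ^ 2 with hmdef
  set M := |(m : ℝ)| with hM
  set u := |(a : ℝ) - r| with hu
  have hu0 : 0 ≤ u := abs_nonneg _
  have ha0 : (0 : ℝ) < a := by linarith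
  have hF : F4 x y a b = 0 := by
    apply eq_zero_of_lt
    rw [h.F4R]
    have e1 : |((a : ℝ) - r) ^ 3 * (a + 3 * r) + 8 * κ * a| ≤ u ^ 3 * (a + 3 * r) + 8 * |κ| * a := by
      refine (abs_add_le _ _).trans ?_
      rw [abs_mul, abs_mul, abs_mul, abs_pow, abs_of_pos (by linarith : (0 : ℝ) < a + 3 * r),
        abs_of_pos (by norm_num : (0 : ℝ) < 8), abs_of_pos ha0]
    refine lt_of_le_of_lt e1 ?_
    have e2 : u ^ 3 * (a + 3 * r) ≤ 19 / 4 * c := by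
      have : (u * a) ^ 3 ≤ c * a ^ 2 := (pow_le_pow_left₀ (by positivity) u1 3).trans h1.le
      have h3 : u ^ 3 * a ≤ c := by
        have : (u ^ 3 * a) * a ^ 2 ≤ c * a ^ 2 := by nlinarith
        exact le_of_mul_le_mul_right this (by positivity)
      have : 0 ≤ u ^ 3 := by positivity
      nlinarith
    have e3 : |κ| * a ≤ 16 / 9 * (c * C) := by
      have : |κ| * a * a ≤ 16 / 9 * (c * C) * a := by nlinarith
      exact le_of_mul_le_mul_right this ha0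
    linarith
  have hb1 : b = 1 := by
    apply b_eq_one (k := 4) hb0 hcop
    exact ⟨6 * x * a ^ 2 * b - 8 * y * a * b ^ 2 + 3 * x ^ 2 * b ^ 3, by
      unfold F4 at hF; linear_combination hF⟩
  have hF2 := F4_eq x y a b
  rw [hF, ← hmdef] at hF2
  have hn : 4 * a * F3 x y a b = 3 * m ^ 2 := by linarith
  have haZ : a ≠ 0 := by rintro rfl; simp at ha0
  have hn0 : F3 x y a b ≠ 0 := by
    intro h0
    rw [h0] at hn
    have : m ^ 2 = 0 := by linarith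
    exact hne (pow_eq_zero_iff (two_ne_zero) |>.mp this)
  have hnR : 4 * (a : ℝ) * ((F3 x y a b : ℤ) : ℝ) = 3 * M ^ 2 := by
    rw [hM, sq_abs]; exact_mod_cast hn
  have hn1 : (1 : ℝ) ≤ ((F3 x y a b : ℤ) : ℝ) := by
    have h3 : (0 : ℝ) < ((F3 x y a b : ℤ) : ℝ) := by
      by_contra hcon
      push Not at hcon
      have : 0 < 3 * M ^ 2 := by positivity
      nlinarith
    have h4 : 0 < F3 x y a b := by exact_mod_cast h3
    exact_mod_cast h4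
  have hMa : 4 * (a : ℝ) ≤ 3 * M ^ 2 := by rw [← hnR]; nlinarith
  subst hb1
  have h64 : 64 * a ^ 2 * (y ^ 2 - x ^ 3) = m ^ 3 * (8 * a ^ 2 + 9 * m) := by
    unfold F3 at hn
    have hx : x = m + a ^ 2 := by rw [hmdef]; ring
    have h8 : 8 * a * y = 8 * a ^ 4 + 12 * a ^ 2 * m + 3 * m ^ 2 := by
      rw [hx] at hn; linear_combination hn
    have : 64 * a ^ 2 * y ^ 2 = (8 * a * y) ^ 2 := by ring
    rw [mul_sub, this, h8, hx]; ring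
  have h64R : 64 * (a : ℝ) ^ 2 * ((y : ℝ) ^ 2 - x ^ 3) = m ^ 3 * (8 * a ^ 2 + 9 * m) := by
    exact_mod_cast h64
  have hd := h.hd
  simp only [Int.cast_one, one_pow, mul_one] at hd h2
  have h5 : 64 * (a : ℝ) ^ 2 * |(y : ℝ) ^ 2 - x ^ 3| = M ^ 3 * |8 * (a : ℝ) ^ 2 + 9 * m| := by
    calc 64 * (a : ℝ) ^ 2 * |(y : ℝ) ^ 2 - x ^ 3| = |64 * (a : ℝ) ^ 2 * ((y : ℝ) ^ 2 - x ^ 3)| := by
          rw [abs_mul, abs_of_pos (by positivity : (0 : ℝ) < 64 * (a : ℝ) ^ 2)]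
      _ = _ := by rw [h64R, abs_mul, abs_pow]
  have h6 : 7 * (a : ℝ) ^ 2 ≤ |8 * (a : ℝ) ^ 2 + 9 * m| := by
    have := (abs_le.mp hm).1
    refine le_trans ?_ (le_abs_self _)
    linarith
  have h7 : M ^ 3 * (7 * (a : ℝ) ^ 2) ≤ 64 * (a : ℝ) ^ 2 * (C * (5 / 4 * a)) := by
    calc M ^ 3 * (7 * (a : ℝ) ^ 2) ≤ M ^ 3 * |8 * (a : ℝ) ^ 2 + 9 * m| := by gcongr
      _ = 64 * (a : ℝ) ^ 2 * |(y : ℝ) ^ 2 - x ^ 3| := h5.symm
      _ ≤ 64 * (a : ℝ) ^ 2 * (C * (5 / 4 * a)) := by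
          gcongr
          exact hd.trans (by gcongr)
  have h8 : 7 * M ^ 3 ≤ 80 * C * a := by
    have : (7 * M ^ 3) * (a : ℝ) ^ 2 ≤ (80 * C * a) * (a : ℝ) ^ 2 := by linarith
    exact le_of_mul_le_mul_right this (by positivity)
  have h9 : M ≤ 9 * C := by
    have h10 : 7 * M ^ 3 ≤ 60 * C * M ^ 2 := by nlinarith
    have h11 : (7 * M) * M ^ 2 ≤ (60 * C) * M ^ 2 := by nlinarith
    have := le_of_mul_le_mul_right h11 (by positivity)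
    linarith
  have h12 : (a : ℝ) ≤ 61 * C ^ 2 := by nlinarith
  have h13 : c * (a : ℝ) ≤ c * (61 * C ^ 2) := by gcongr
  linarith

/-- the sextic case -/
theorem case6 (h : Dat C x y a b r κ) (hc0 : 0 < c) (hc : c * (10 ^ 7 * C ^ 2) ≤ 1)
    (hb0 : 0 < b) (hcop : IsCoprime a b) (hne : b ^ 2 * x - a ^ 2 ≠ 0)
    (h1 : |((b ^ 2 * x - a ^ 2 : ℤ) : ℝ)| ^ 5 < c * a ^ 4)
    (h2 : |((b ^ 2 * x - a ^ 2 : ℤ) : ℝ)| * (b : ℝ) ^ 5 < c * a) : False := by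
  obtain ⟨c1, c2, c3⟩ := small_of_pow h.hC hc hc0
  have ha := h.ha
  have hb := h.hb
  have hC := h.hC
  have hm : |((b ^ 2 * x - a ^ 2 : ℤ) : ℝ)| ≤ (a : ℝ) ^ 2 / 16 := by
    by_contra hcon
    push Not at hcon
    have h3 : ((a : ℝ) ^ 2 / 16) ^ 5 ≤ |((b ^ 2 * x - a ^ 2 : ℤ) : ℝ)| ^ 5 := by
      apply pow_le_pow_left₀ (by positivity) hcon.le
    have h4 : (1 : ℝ) ≤ a ^ 6 := one_le_pow₀ ha
    have h5 : (0 : ℝ) < a ^ 4 := by positivity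
    nlinarith
  obtain ⟨r1, r2, u1, k1⟩ := h.bounds hm
  have hm1 : (1 : ℝ) ≤ |((b ^ 2 * x - a ^ 2 : ℤ) : ℝ)| := by
    have : (1 : ℤ) ≤ |b ^ 2 * x - a ^ 2| := Int.one_le_abs hne
    exact_mod_cast this
  set m := b ^ 2 * x - a ^ 2 with hmdef
  set M := |(m : ℝ)| with hM
  set u := |(a : ℝ) - r| with hu
  have hu0 : 0 ≤ u := abs_nonneg _
  have ha0 : (0 : ℝ) < a := by linarith
  have hb5 : (0 : ℝ) < (b : ℝ) ^ 5 := by positivity
  have hbc : (b : ℝ) ^ 5 ≤ c * a := by nlinarith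
  have hub : (b : ℝ) ^ 5 * u ≤ c := by
    have : (b : ℝ) ^ 5 * u * a ≤ c * a := by nlinarith
    exact le_of_mul_le_mul_right this ha0
  have hF : F6 x y a b = 0 := by
    apply eq_zero_of_lt
    rw [h.F6R]
    have e1 : |((a : ℝ) - r) ^ 5 * (a + 5 * r)
      + 8 * κ * (a - r) * (5 * a ^ 2 + 5 * a * r + 8 * r ^ 2) - 32 * κ ^ 2| ≤
        u ^ 5 * (a + 5 * r) + 8 * |κ| * u * (5 * a ^ 2 + 5 * a * r + 8 * r ^ 2) + 32 * |κ| ^ 2 := by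
      refine (abs_sub _ _).trans ?_
      have := h.r0
      have e0 := abs_add_le (((a : ℝ) - r) ^ 5 * (a + 5 * r))
        (8 * κ * (a - r) * (5 * a ^ 2 + 5 * a * r + 8 * r ^ 2))
      rw [abs_mul, abs_mul, abs_mul, abs_mul, abs_pow, abs_of_pos (by linarith : (0 : ℝ) < a + 5 * r),
        abs_of_pos (by norm_num : (0 : ℝ) < 8),
        abs_of_pos (by positivity : (0 : ℝ) < 5 * a ^ 2 + 5 * a * r + 8 * r ^ 2)] at e0
      have e00 : |32 * κ ^ 2| = 32 * |κ| ^ 2 := by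
        rw [abs_mul, abs_pow, abs_of_pos (by norm_num : (0 : ℝ) < 32)]
      rw [e00]
      linarith
    refine lt_of_le_of_lt e1 ?_
    have e2 : u ^ 5 * (a + 5 * r) ≤ 29 / 4 * c := by
      have : (u * a) ^ 5 ≤ c * a ^ 4 := (pow_le_pow_left₀ (by positivity) u1 5).trans h1.le
      have h3 : u ^ 5 * a ≤ c := by
        have : (u ^ 5 * a) * a ^ 4 ≤ c * a ^ 4 := by nlinarith
        exact le_of_mul_le_mul_right this (by positivity)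
      have : 0 ≤ u ^ 5 := by positivity
      nlinarith
    have e3 : 8 * |κ| * u * (5 * a ^ 2 + 5 * a * r + 8 * r ^ 2) ≤ 340 * (c * C) := by
      have h3 : 5 * (a : ℝ) ^ 2 + 5 * a * r + 8 * r ^ 2 ≤ 95 / 4 * a ^ 2 := by nlinarith
      calc 8 * |κ| * u * (5 * a ^ 2 + 5 * a * r + 8 * r ^ 2)
          ≤ 8 * |κ| * u * (95 / 4 * a ^ 2) := by gcongr
        _ = 190 * u * (|κ| * a ^ 2) := by ring
        _ ≤ 190 * u * (16 / 9 * C * b ^ 5) := by gcongr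
        _ = 3040 / 9 * C * (b ^ 5 * u) := by ring
        _ ≤ 3040 / 9 * C * c := by gcongr
        _ ≤ 340 * (c * C) := by nlinarith
    have e4 : |κ| ≤ 16 / 9 * (c * C) := by
      have h3 : |κ| * (a : ℝ) ^ 2 ≤ 16 / 9 * C * (c * a ^ 2) := by
        refine k1.trans ?_
        have : (b : ℝ) ^ 5 ≤ c * a ^ 2 := by nlinarith
        gcongr
      have : |κ| * (a : ℝ) ^ 2 ≤ 16 / 9 * (c * C) * a ^ 2 := by linarith
      exact le_of_mul_le_mul_right this (by positivity)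
    have e5 : 32 * |κ| ^ 2 ≤ 32 * (16 / 9 * (c * C)) ^ 2 := by gcongr
    have e6 : (c * C) ^ 2 ≤ 1 / 10 ^ 7 := by
      have : 0 < c * C := by positivity
      nlinarith
    nlinarith
  have hb1 : b = 1 := by
    apply b_eq_one (k := 6) hb0 hcop
    exact ⟨15 * x * a ^ 4 * b - 40 * y * a ^ 3 * b ^ 2 + 45 * x ^ 2 * a ^ 2 * b ^ 3
      - 24 * x * y * a * b ^ 4 - (27 * x ^ 3 - 32 * y ^ 2) * b ^ 5, by
      unfold F6 at hF; linear_combination hF⟩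
  have hF2 := F6_eq x y a b
  rw [hF, ← hmdef] at hF2
  set n := F3 x y a b with hn
  have hn0 : n ≠ 0 := by
    intro h0
    rw [h0] at hF2
    have : m ^ 3 = 0 := by linarith
    exact hne (pow_eq_zero_iff (three_ne_zero) |>.mp this)
  -- divisibility
  have hdiv : M ≤ 8 * |(n : ℝ)| := by
    obtain ⟨g, m1, n1, hg, hcop1, hm1', hn1'⟩ := Int.exists_gcd_one' (Int.gcd_pos_of_ne_zero_left n hne)
    have hgZ : (g : ℤ) ≠ 0 := by exact_mod_cast hg.ne'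
    have e1 : (g : ℤ) ^ 2 * (27 * g * m1 ^ 3 - 36 * a * m1 * n1 - 8 * n1 ^ 2) = 0 := by
      rw [hm1', hn1'] at hF2
      linear_combination -hF2
    have e2 : 27 * g * m1 ^ 3 - 36 * a * m1 * n1 - 8 * n1 ^ 2 = 0 :=
      (mul_eq_zero.mp e1).resolve_left (pow_ne_zero 2 hgZ)
    have e3 : m1 ∣ 8 := by
      have h3 : m1 ∣ 8 * n1 ^ 2 := ⟨27 * g * m1 ^ 2 - 36 * a * n1, by linear_combination -e2⟩
      have h4 : IsCoprime m1 n1 := Int.isCoprime_iff_gcd_eq_one.mpr hcop1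
      exact (h4.pow_right (n := 2)).dvd_of_dvd_mul_right h3
    have e4 : |m1| ≤ 8 := by
      have := Int.le_of_dvd (by norm_num) ((abs_dvd m1 8).mpr e3)
      exact this
    have hn10 : n1 ≠ 0 := by
      rintro rfl
      simp at hn1'
      exact hn0 hn1'
    have e5 : (1 : ℤ) ≤ |n1| := Int.one_le_abs hn10
    have e6 : |m| ≤ 8 * |n| := by
      rw [hm1', hn1', abs_mul, abs_mul]
      have : 0 ≤ |(g : ℤ)| := abs_nonneg _
      nlinarith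
    rw [hM]
    exact_mod_cast e6
  subst hb1
  simp only [Int.cast_one, one_pow, mul_one] at k1 h2
  have hnR : (n : ℝ) = (a - r) ^ 2 * (a + 2 * r) + 2 * κ := h.F3R
  have e1 : |(n : ℝ)| ≤ u ^ 2 * (a + 2 * r) + 2 * |κ| := by
    rw [hnR]
    refine (abs_add_le _ _).trans ?_
    rw [abs_mul, abs_mul, abs_pow, abs_of_pos (by linarith : (0 : ℝ) < a + 2 * r), abs_two]
  have e2 : u ^ 2 * (a + 2 * r) ≤ 7 / 2 * (c * M) := by
    have h3 : (u * a) ^ 2 ≤ M ^ 2 := pow_le_pow_left₀ (by positivity) u1 2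
    have h4 : u ^ 2 * a * a ≤ c * M * a := by nlinarith
    have h5 : u ^ 2 * a ≤ c * M := le_of_mul_le_mul_right h4 ha0
    nlinarith [sq_nonneg u]
  have e3 : |κ| ≤ 16 / 9 * (c * C) := by
    have h3 : (1 : ℝ) ≤ c * a := by nlinarith
    have h4 : (1 : ℝ) ≤ c * a ^ 2 := by nlinarith
    have : |κ| * (a : ℝ) ^ 2 ≤ 16 / 9 * (c * C) * a ^ 2 := by nlinarith
    exact le_of_mul_le_mul_right this (by positivity)
  nlinarith

end Pool.Agent.Helper6.HallRep
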