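import Pool.Agent.Helper6.HallRep.Base

set_option autoImplicit false

namespace Pool.Agent.Helper6.HallRep

variable {C c : ℝ} {x y a b : ℤ} {r κ : ℝ}

theorem K_bound {C : ℝ} {x y : ℤ} (hx : 0 < x) (hy : 0 ≤ y)
    (hd : |(y : ℝ) ^ 2 - x ^ 3| ≤ C * √(x : ℝ)) : |(y : ℝ) - √(x : ℝ) ^ 3| * √(x : ℝ) ^ 2 ≤ C := by
  have hxR : (0 : ℝ) < x := by exact_mod_cast hx
  have hyR : (0 : ℝ) ≤ y := by exact_mod_cast hy
  have hs : 0 < √(x : ℝ) := Real.sqrt_pos.mpr hxR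
  have hss : √(x : ℝ) ^ 2 = x := Real.sq_sqrt hxR.le
  set s := √(x : ℝ) with hsdef
  have h1 : |(y : ℝ) - s ^ 3| * (y + s ^ 3) ≤ C * s := by
    have : (y : ℝ) ^ 2 - x ^ 3 = (y - s ^ 3) * (y + s ^ 3) := by rw [← hss]; ring
    rw [this, abs_mul, abs_of_nonneg (by positivity : (0 : ℝ) ≤ y + s ^ 3)] at hd
    exact hd
  have h3 : |(y : ℝ) - s ^ 3| * s ^ 2 * s ≤ C * s := by
    refine le_trans ?_ h1
    have h4 := abs_nonneg ((y : ℝ) - s ^ 3)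
    nlinarith
  exact le_of_mul_le_mul_right h3 hs

/-- two points cannot be close to each other -/
theorem pair (hC : 1 ≤ C) (hc0 : 0 < c) (hc : c * (10 ^ 7 * C ^ 2) ≤ 1) {x y x' y' : ℤ}
    (hx : 0 < x) (hy : 0 ≤ y) (hy' : 0 ≤ y') (hlt : x < x')
    (hd : |(y : ℝ) ^ 2 - x ^ 3| ≤ C * √(x : ℝ)) (hd' : |(y' : ℝ) ^ 2 - x' ^ 3| ≤ C * √(x' : ℝ))
    (h4 : ((x' - x : ℤ) : ℝ) ^ 4 < c ^ 2 * x) : False := by
  obtain ⟨c1, c2, c3⟩ := small_of_pow hC hc hc0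
  have hx' : 0 < x' := hx.trans hlt
  have hK := K_bound hx hy hd
  have hK' := K_bound hx' hy' hd'
  have hxR : (0 : ℝ) < x := by exact_mod_cast hx
  have hxR' : (0 : ℝ) < x' := by exact_mod_cast hx'
  have hs : 0 < √(x : ℝ) := Real.sqrt_pos.mpr hxR
  have hs' : 0 < √(x' : ℝ) := Real.sqrt_pos.mpr hxR'
  have hss : √(x : ℝ) ^ 2 = x := Real.sq_sqrt hxR.le
  have hss' : √(x' : ℝ) ^ 2 = x' := Real.sq_sqrt hxR'.le
  have hlt' : √(x : ℝ) < √(x' : ℝ) := Real.sqrt_lt_sqrt hxR.le (by exact_mod_cast hlt)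
  set h := x' - x with hh
  have h1Z : (1 : ℤ) ≤ h := by omega
  have h1 : (1 : ℝ) ≤ h := by exact_mod_cast h1Z
  have hhR : (h : ℝ) = √(x' : ℝ) ^ 2 - √(x : ℝ) ^ 2 := by rw [hss, hss', hh]; push_cast; ring
  set s := √(x : ℝ) with hsdef
  set s' := √(x' : ℝ) with hsdef'
  set K := (y : ℝ) - s ^ 3 with hKdef
  set K' := (y' : ℝ) - s' ^ 3 with hKdef'
  have hcs : (h : ℝ) ^ 2 < c * s := by
    rw [← hss] at h4
    have : ((h : ℝ) ^ 2) ^ 2 < (c * s) ^ 2 := by nlinarith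
    exact lt_of_pow_lt_pow_left₀ 2 (by positivity) this
  have hcs1 : (h : ℝ) < c * s := by nlinarith
  have hs1 : 1 < c * s := by linarith
  set δ := s' - s with hδ
  have hδ0 : 0 < δ := by rw [hδ]; linarith
  have hδ1 : δ * (2 * s) ≤ h := by rw [hhR]; nlinarith
  have hδs : δ ≤ s / 4 := by
    have : δ * (2 * s) ≤ (s / 4) * (2 * s) := by
      have : (h : ℝ) ≤ s := by nlinarith
      have : (2 : ℝ) ≤ s := by nlinarith
      nlinarith
    exact le_of_mul_le_mul_right this (by positivity)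
  have hs54 : s' ≤ 5 / 4 * s := by rw [hδ] at hδs; linarith
  have hKK : |K' - K| * s ^ 2 ≤ 2 * C := by
    have e1 : |K'| * s ^ 2 ≤ C := by
      refine le_trans ?_ hK'
      have := abs_nonneg K'
      have : s ^ 2 ≤ s' ^ 2 := by gcongr
      gcongr
    have e2 := abs_sub K' K
    nlinarith [sq_nonneg s]
  -- the integer `V`
  set V : ℤ := 9 * h ^ 2 * (x + x') - 8 * (y' - y) ^ 2 with hV
  have hVR : (V : ℝ) = δ ^ 4 * (s ^ 2 + 4 * s * s' + s' ^ 2) - 16 * (δ * (s ^ 2 + s * s' + s' ^ 2)) * (K' - K)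
      - 8 * (K' - K) ^ 2 := by
    have e1 : (y' : ℝ) = s' ^ 3 + K' := by rw [hKdef']; ring
    have e2 : (y : ℝ) = s ^ 3 + K := by rw [hKdef]; ring
    rw [hV]
    push_cast
    rw [hhR, e1, e2, ← hss, ← hss', hδ]
    ring
  have t1 : δ ^ 4 * (s ^ 2 + 4 * s * s' + s' ^ 2) ≤ 1 / 4 := by
    have e1 : s ^ 2 + 4 * s * s' + s' ^ 2 ≤ 8 * s ^ 2 := by nlinarith
    have e2 : (δ * (2 * s)) ^ 4 ≤ c ^ 2 * s ^ 2 := by
      calc (δ * (2 * s)) ^ 4 ≤ (h : ℝ) ^ 4 := pow_le_pow_left₀ (by positivity) hδ1 4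
        _ ≤ c ^ 2 * s ^ 2 := by rw [hss]; exact h4.le
    have e3 : (16 * (δ ^ 4 * s ^ 2)) * s ^ 2 ≤ c ^ 2 * s ^ 2 := by nlinarith
    have e4 := le_of_mul_le_mul_right e3 (by positivity)
    have e5 : δ ^ 4 * (s ^ 2 + 4 * s * s' + s' ^ 2) ≤ δ ^ 4 * (8 * s ^ 2) := by gcongr
    nlinarith
  have t2 : |16 * (δ * (s ^ 2 + s * s' + s' ^ 2)) * (K' - K)| ≤ 1 / 4 := by
    rw [abs_mul, abs_of_pos (by positivity : 0 < 16 * (δ * (s ^ 2 + s * s' + s' ^ 2)))]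
    have e1 : s ^ 2 + s * s' + s' ^ 2 ≤ 4 * s ^ 2 := by nlinarith
    have e0 := abs_nonneg (K' - K)
    calc 16 * (δ * (s ^ 2 + s * s' + s' ^ 2)) * |K' - K|
        ≤ 16 * (δ * (4 * s ^ 2)) * |K' - K| := by gcongr
      _ = 64 * δ * (|K' - K| * s ^ 2) := by ring
      _ ≤ 64 * δ * (2 * C) := by gcongr
      _ ≤ 1 / 4 := by
          have e2 : δ * 2 ≤ c := by
            have : (δ * 2) * s ≤ c * s := by nlinarith
            exact le_of_mul_le_mul_right this hs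
          nlinarith
  have t3 : 8 * (K' - K) ^ 2 ≤ 1 / 4 := by
    have e0 := abs_nonneg (K' - K)
    have e1 : |K' - K| ≤ 2 * (c * C) := by
      have : |K' - K| * s ^ 2 ≤ 2 * (c * C) * s ^ 2 := by
        refine hKK.trans ?_
        have e2 : 1 ≤ c * s ^ 2 := by
          have : 1 ≤ s := by nlinarith
          nlinarith
        nlinarith
      exact le_of_mul_le_mul_right this (by positivity)
    rw [← sq_abs]
    have : |K' - K| ≤ 1 / 100 := by linarith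
    nlinarith
  have hV0 : V = 0 := by
    apply eq_zero_of_lt
    rw [hVR]
    have e1 := abs_sub (δ ^ 4 * (s ^ 2 + 4 * s * s' + s' ^ 2) -
      16 * (δ * (s ^ 2 + s * s' + s' ^ 2)) * (K' - K)) (8 * (K' - K) ^ 2)
    have e2 := abs_sub (δ ^ 4 * (s ^ 2 + 4 * s * s' + s' ^ 2))
      (16 * (δ * (s ^ 2 + s * s' + s' ^ 2)) * (K' - K))
    rw [abs_of_nonneg (by positivity : 0 ≤ 8 * (K' - K) ^ 2)] at e1
    rw [abs_of_pos (by positivity : 0 < δ ^ 4 * (s ^ 2 + 4 * s * s' + s' ^ 2))] at e2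
    linarith
  -- `2 (x + x')` is a square
  have hdvd : (3 * h) ^ 2 ∣ (4 * (y' - y)) ^ 2 := ⟨2 * (x + x'), by rw [hV] at hV0; linear_combination -2 * hV0⟩
  obtain ⟨r, hr⟩ := (Int.pow_dvd_pow_iff two_ne_zero).mp hdvd
  have hr2 : r ^ 2 = 2 * (x + x') := by
    have e1 : (3 * h) ^ 2 * (r ^ 2 - 2 * (x + x')) = 0 := by
      have : (4 * (y' - y)) ^ 2 = (3 * h) ^ 2 * r ^ 2 := by rw [hr]; ring
      rw [hV] at hV0
      linear_combination -this - 2 * hV0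
    have e2 : (3 * h) ^ 2 ≠ 0 := pow_ne_zero 2 (by omega)
    have := (mul_eq_zero.mp e1).resolve_left e2
    linarith
  have hre : Even r := by
    have : Even (r ^ 2) := by rw [hr2]; exact even_two_mul _
    exact (Int.even_pow.mp this).1
  obtain ⟨w0, hw0⟩ := hre
  set w := |w0| with hw
  have hww : w ^ 2 = w0 ^ 2 := sq_abs w0
  have hw2 : 2 * w ^ 2 = x + x' := by
    rw [hww]
    have : (w0 + w0) ^ 2 = 2 * (x + x') := by rw [← hw0]; exact hr2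
    nlinarith
  have hwpos : 0 < w := by
    have : 0 ≤ w := abs_nonneg _
    rcases this.lt_or_eq with h0 | h0
    · exact h0
    · rw [← h0] at hw2; simp at hw2; omega
  have hm2 : 2 * (1 ^ 2 * x - w ^ 2) = -h := by rw [hh]; linarith
  have hne : (1 : ℤ) ^ 2 * x - w ^ 2 ≠ 0 := by intro h0; rw [h0] at hm2; omega
  have dat := exists_dat hC hx hy hwpos (one_pos) hd
  have hwR : s ≤ (w : ℝ) := by
    have hw0R : (0 : ℝ) < w := by exact_mod_cast hwpos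
    have : s ^ 2 ≤ (w : ℝ) ^ 2 := by
      rw [hss]
      have : x ≤ w ^ 2 := by linarith
      exact_mod_cast this
    exact le_of_sq_le_sq this hw0R.le
  refine case3 dat hc0 hc one_pos isCoprime_one_right hne ?_ ?_
  · have e1 : |((1 ^ 2 * x - w ^ 2 : ℤ) : ℝ)| ^ 2 = (h : ℝ) ^ 2 / 4 := by
      rw [sq_abs]
      have e2 : 2 * ((1 ^ 2 * x - w ^ 2 : ℤ) : ℝ) = -h := by exact_mod_cast hm2
      have e3 : ((1 ^ 2 * x - w ^ 2 : ℤ) : ℝ) = -(h : ℝ) / 2 := by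
        rw [eq_div_iff two_ne_zero, mul_comm]; exact e2
      rw [e3]
      ring
    rw [e1]
    nlinarith
  · push_cast
    have : (1 : ℝ) ≤ w := by exact_mod_cast hwpos
    nlinarith


/-- the two points, with any signs of the ordinates -/
theorem pair' (hC : 1 ≤ C) (hc0 : 0 < c) (hc : c * (10 ^ 7 * C ^ 2) ≤ 1) {x y x' y' : ℤ}
    (hx : 0 < x) (hlt : x < x')
    (hd : |(y : ℝ) ^ 2 - x ^ 3| ≤ C * √(x : ℝ)) (hd' : |(y' : ℝ) ^ 2 - x' ^ 3| ≤ C * √(x' : ℝ)) :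
    c ^ 2 / 2 * x' ≤ ((x' - x : ℤ) : ℝ) ^ 4 := by
  by_contra hcon
  push Not at hcon
  have hy : |((|y| : ℤ) : ℝ) ^ 2 - x ^ 3| ≤ C * √(x : ℝ) := by
    push_cast; rw [sq_abs]; exact hd
  have hy' : |((|y'| : ℤ) : ℝ) ^ 2 - x' ^ 3| ≤ C * √(x' : ℝ) := by
    push_cast; rw [sq_abs]; exact hd'
  have hxR : (1 : ℝ) ≤ x := by exact_mod_cast hx
  refine pair hC hc0 hc hx (abs_nonneg y) (abs_nonneg y') hlt hy hy' (hcon.trans_le ?_)
  obtain ⟨c1, -, -⟩ := small_of_pow hC hc hc0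
  have h2 : (x' : ℝ) ≤ 2 * x := by
    by_contra h
    push Not at h
    have e1 : (x' : ℝ) / 2 ≤ ((x' - x : ℤ) : ℝ) := by push_cast; linarith
    have e2 : ((x' : ℝ) / 2) ^ 4 ≤ ((x' - x : ℤ) : ℝ) ^ 4 := pow_le_pow_left₀ (by linarith) e1 4
    have e3 : (1 : ℝ) ≤ (x' : ℝ) ^ 3 := one_le_pow₀ (by linarith)
    have e4 : (x' : ℝ) / 16 ≤ ((x' : ℝ) / 2) ^ 4 := by nlinarith
    have e5 : c ^ 2 / 2 ≤ 1 / 16 := by nlinarith
    nlinarith
  have : 0 < c ^ 2 := by positivity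
  nlinarith

/-- the three cases together, for `C < x` -/
theorem approx (hC : 1 ≤ C) (hc0 : 0 < c) (hc : c * (10 ^ 7 * C ^ 2) ≤ 1) {x y a b : ℤ}
    (hx : C < x) (hne : y ^ 2 ≠ x ^ 3) (ha : 0 < a) (hb : 0 < b) (hcop : IsCoprime a b)
    (hd : |(y : ℝ) ^ 2 - x ^ 3| ≤ C * √(x : ℝ)) :
    b ^ 2 * x - a ^ 2 ≠ 0 ∧ (c * a ^ 4 ≤ |((b ^ 2 * x - a ^ 2 : ℤ) : ℝ)| ^ 5 ∨
      c * a ≤ |((b ^ 2 * x - a ^ 2 : ℤ) : ℝ)| * (b : ℝ) ^ 5) ∧
    (c * a ^ 2 ≤ |((b ^ 2 * x - a ^ 2 : ℤ) : ℝ)| ^ 3 ∨ c * a ≤ (b : ℝ) ^ 5) ∧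
    (c * a ≤ |((b ^ 2 * x - a ^ 2 : ℤ) : ℝ)| ^ 2 ∨ c * a ^ 2 ≤ (b : ℝ) ^ 5) := by
  have hxR : (0 : ℝ) < x := by linarith
  have hx0 : 0 < x := by exact_mod_cast hxR
  have hy : |((|y| : ℤ) : ℝ) ^ 2 - x ^ 3| ≤ C * √(x : ℝ) := by
    push_cast; rw [sq_abs]; exact hd
  have dat := exists_dat hC hx0 (abs_nonneg y) ha hb hy
  -- `x` is not a square
  have hm : b ^ 2 * x - a ^ 2 ≠ 0 := by
    intro h0
    have hb1 : b = 1 := by
      apply b_eq_one (k := 2) hb hcop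
      exact ⟨b * x, by linear_combination -h0⟩
    subst hb1
    have hxa : x = a ^ 2 := by linarith
    have haR : (1 : ℝ) ≤ a := by exact_mod_cast ha
    have hs : √(x : ℝ) = a := by
      rw [hxa]; push_cast; exact Real.sqrt_sq (by linarith)
    rw [hs] at hy
    have e1 : ((|y| : ℤ) : ℝ) ^ 2 - x ^ 3 = (((|y| - a ^ 3 : ℤ)) : ℝ) * ((|y| + a ^ 3 : ℤ) : ℝ) := by
      rw [hxa]; push_cast; ring
    have e2 : |y| - a ^ 3 ≠ 0 := by
      intro h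
      apply hne
      have : |y| = a ^ 3 := by linarith
      rw [← sq_abs, this, hxa]; ring
    have e3 : (1 : ℝ) ≤ |((|y| - a ^ 3 : ℤ) : ℝ)| := by
      have : (1 : ℤ) ≤ |(|y| - a ^ 3)| := Int.one_le_abs e2
      exact_mod_cast this
    have e4 : (a : ℝ) ^ 3 ≤ |((|y| + a ^ 3 : ℤ) : ℝ)| := by
      refine le_trans ?_ (le_abs_self _)
      push_cast
      have := abs_nonneg (y : ℝ)
      linarith
    rw [e1, abs_mul] at hy
    have e5 : (a : ℝ) ^ 3 ≤ C * a := by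
      have : 0 ≤ (a : ℝ) ^ 3 := by positivity
      nlinarith
    have e6 : (a : ℝ) ^ 2 ≤ C := by
      have : (a : ℝ) ^ 2 * a ≤ C * a := by linarith
      exact le_of_mul_le_mul_right this (by linarith)
    have e7 : (x : ℝ) = a ^ 2 := by rw [hxa]; push_cast; ring
    linarith
  refine ⟨hm, ?_, ?_, ?_⟩
  · by_contra h
    push Not at h
    exact case6 dat hc0 hc hb hcop hm h.1 h.2
  · by_contra h
    push Not at h
    exact case4 dat hc0 hc hb hcop hm h.1 h.2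
  · by_contra h
    push Not at h
    exact case3 dat hc0 hc hb hcop hm h.1 h.2

/-- the distance of `√x` from the integers -/
theorem near_int (hC : 1 ≤ C) (hc0 : 0 < c) (hc : c * (10 ^ 7 * C ^ 2) ≤ 1) {x y k : ℤ}
    (hx : C < x) (hne : y ^ 2 ≠ x ^ 3) (hd : |(y : ℝ) ^ 2 - x ^ 3| ≤ C * √(x : ℝ)) :
    (c ^ 4) ^ 2 / 2 ^ 20 ≤ |√(x : ℝ) - k| ^ 10 * x := by
  obtain ⟨c1, -, -⟩ := small_of_pow hC hc hc0
  have hxR : (0 : ℝ) < x := by linarith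
  have hx1 : (1 : ℝ) ≤ x := by linarith
  have hss : √(x : ℝ) ^ 2 = x := Real.sq_sqrt hxR.le
  have hs1 : 1 ≤ √(x : ℝ) := by
    rw [Real.one_le_sqrt]; exact hx1
  set s := √(x : ℝ) with hs
  set t := |s - k| with ht
  have ht0 : 0 ≤ t := abs_nonneg _
  rcases le_or_gt (1 / 4) t with h | h
  · have e1 : (1 / 4 : ℝ) ^ 10 ≤ t ^ 10 := pow_le_pow_left₀ (by norm_num) h 10
    have e2 : (1 / 4 : ℝ) ^ 10 * 1 ≤ t ^ 10 * x := by gcongr
    have e3 : (c ^ 4) ^ 2 ≤ 1 := by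
      have : c ^ 4 ≤ 1 := pow_le_one₀ hc0.le (by linarith)
      exact pow_le_one₀ (by positivity) this
    have e4 : (c ^ 4) ^ 2 / 2 ^ 20 ≤ (1 / 4 : ℝ) ^ 10 * 1 := by
      rw [div_le_iff₀ (by positivity)]
      calc (c ^ 4) ^ 2 ≤ 1 := e3
        _ = (1 / 4 : ℝ) ^ 10 * 1 * 2 ^ 20 := by norm_num
    linarith
  · have h1 := abs_lt.mp h
    have hk1 : 3 / 4 * s ≤ (k : ℝ) := by linarith
    have hk2 : (k : ℝ) ≤ 5 / 4 * s := by linarith
    have hk0R : (0 : ℝ) < k := by linarith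
    have hk0 : 0 < k := by exact_mod_cast hk0R
    have hk1' : (1 : ℝ) ≤ k := by exact_mod_cast hk0
    obtain ⟨hm0, h6, -, -⟩ := approx hC hc0 hc hx hne hk0 one_pos isCoprime_one_right hd
    have em : |((1 ^ 2 * x - k ^ 2 : ℤ) : ℝ)| = t * (s + k) := by
      have : ((1 ^ 2 * x - k ^ 2 : ℤ) : ℝ) = (s - k) * (s + k) := by push_cast; rw [← hss]; ring
      rw [this, abs_mul, abs_of_pos (by linarith : 0 < s + k)]
    have hM1 : (1 : ℝ) ≤ t * (s + k) := by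
      rw [← em]
      have : (1 : ℤ) ≤ |1 ^ 2 * x - k ^ 2| := Int.one_le_abs hm0
      exact_mod_cast this
    rw [em] at h6
    have e0 : s + k ≤ 9 / 4 * s := by linarith
    have h7 : c ^ 4 * (k : ℝ) ^ 4 ≤ (t * (s + k)) ^ 5 := by
      rcases h6 with h6 | h6
      · refine le_trans ?_ h6
        have f0 : c ^ 4 ≤ c := by
          calc c ^ 4 ≤ c ^ 1 := pow_le_pow_of_le_one hc0.le (by linarith) (by norm_num)
            _ = c := pow_one c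
        gcongr
      · simp only [Int.cast_one, one_pow, mul_one] at h6
        have f1 : (c * k) ^ 4 ≤ (t * (s + k)) ^ 4 := pow_le_pow_left₀ (by positivity) h6 4
        calc c ^ 4 * (k : ℝ) ^ 4 = (c * k) ^ 4 * 1 := by ring
          _ ≤ (t * (s + k)) ^ 4 * (t * (s + k)) := by gcongr
          _ = (t * (s + k)) ^ 5 := by ring
    have key : c ^ 4 * (81 / 256) * s ^ 4 ≤ (9 / 4) ^ 5 * (t ^ 5 * s) * s ^ 4 := by
      calc c ^ 4 * (81 / 256) * s ^ 4 = c ^ 4 * (3 / 4 * s) ^ 4 := by ring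
        _ ≤ c ^ 4 * (k : ℝ) ^ 4 := by gcongr
        _ ≤ (t * (s + k)) ^ 5 := h7
        _ ≤ (t * (9 / 4 * s)) ^ 5 := by gcongr
        _ = (9 / 4) ^ 5 * (t ^ 5 * s) * s ^ 4 := by ring
    have e1 := le_of_mul_le_mul_right key (by positivity)
    have e2 : c ^ 4 / 2 ^ 10 ≤ t ^ 5 * s := by
      have : 0 ≤ t ^ 5 * s := by positivity
      norm_num at e1 ⊢
      linarith
    have e3 : (c ^ 4 / 2 ^ 10) ^ 2 ≤ (t ^ 5 * s) ^ 2 := pow_le_pow_left₀ (by positivity) e2 2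
    calc (c ^ 4) ^ 2 / 2 ^ 20 = (c ^ 4 / 2 ^ 10) ^ 2 := by ring
      _ ≤ (t ^ 5 * s) ^ 2 := e3
      _ = t ^ 10 * x := by rw [← hss]; ring

end Pool.Agent.Helper6.HallRep
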